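import Mathlib

/-!
Counting permutations with a bounded number of copies of 321: the slot recursion.
-/

set_option autoImplicit false

namespace Pool.Agent.P.MP_579152_co

open Finset Equiv

/-- number of entries left of and above the entry in position `j`. -/
def Lc {m : ℕ} (π : Perm (Fin m)) (j : Fin m) : ℕ :=
  ∑ i : Fin m, if i < j ∧ π j < π i then 1 else 0

/-- number of entries right of and below the entry in position `j`. -/
def Rc {m : ℕ} (π : Perm (Fin m)) (j : Fin m) : ℕ :=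
  ∑ k : Fin m, if j < k ∧ π k < π j then 1 else 0

/-- offset function cut at `a`. -/
def cut (a : ℕ) (e : ℕ → ℕ) (j : ℕ) : ℕ := if j < a then e j else 0

/-- weighted cost. -/
def cost {m : ℕ} (a b : ℕ) (e f : ℕ → ℕ) (π : Perm (Fin m)) : ℕ :=
  ∑ j : Fin m, (Lc π j + cut b f (π j)) * (Rc π j + cut a e j)

/-- the slot constraint. -/
def Slot {m : ℕ} (a b : ℕ) (π : Perm (Fin m)) : Prop :=
  ∀ i : Fin m, (i : ℕ) < a → b ≤ (π i : ℕ)

instance {m : ℕ} (a b : ℕ) : DecidablePred (Slot (m := m) a b) := fun π => by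
  unfold Slot; infer_instance

/-- number of completions. -/
def W (m a b : ℕ) (e f : ℕ → ℕ) (c : ℕ) : ℕ :=
  (univ.filter (fun π : Perm (Fin m) => Slot a b π ∧ cost a b e f π ≤ c)).card

lemma Lc_inv {m : ℕ} (π : Perm (Fin m)) (j : Fin m) : Lc π⁻¹ (π j) = Rc π j := by
  unfold Lc Rc
  rw [← Equiv.sum_comp π]
  refine Finset.sum_congr rfl fun k _ => ?_
  simp [and_comm]

lemma Rc_inv {m : ℕ} (π : Perm (Fin m)) (j : Fin m) : Rc π⁻¹ (π j) = Lc π j := by
  unfold Lc Rc
  rw [← Equiv.sum_comp π]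
  refine Finset.sum_congr rfl fun k _ => ?_
  simp [and_comm]

lemma cost_inv {m : ℕ} (a b : ℕ) (e f : ℕ → ℕ) (π : Perm (Fin m)) :
    cost b a f e π⁻¹ = cost a b e f π := by
  unfold cost
  rw [← Equiv.sum_comp π]
  refine Finset.sum_congr rfl fun k _ => ?_
  rw [Lc_inv, Rc_inv]
  simp [mul_comm]

lemma slot_inv {m : ℕ} {a b : ℕ} {π : Perm (Fin m)} (h : Slot a b π) : Slot b a π⁻¹ := by
  intro w hw
  by_contra hlt
  have := h (π⁻¹ w) (by omega)
  simp at this
  omega

lemma W_symm (m a b : ℕ) (e f : ℕ → ℕ) (c : ℕ) : W m a b e f c = W m b a f e c := by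
  unfold W
  refine Finset.card_bij' (fun π _ => π⁻¹) (fun π _ => π⁻¹) ?_ ?_ ?_ ?_
  · intro π hπ
    simp only [mem_filter, mem_univ, true_and] at hπ ⊢
    exact ⟨slot_inv hπ.1, by rw [cost_inv]; exact hπ.2⟩
  · intro π hπ
    simp only [mem_filter, mem_univ, true_and] at hπ ⊢
    exact ⟨slot_inv hπ.1, by rw [cost_inv]; exact hπ.2⟩
  · intro π _; simp
  · intro π _; simp

/-- number of entries with a value below `b`. -/
lemma sum_val_lt {m : ℕ} (π : Perm (Fin m)) (b : ℕ) (hb : b ≤ m) :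
    (∑ k : Fin m, if (π k : ℕ) < b then 1 else 0) = b := by
  rw [Equiv.sum_comp π (fun w : Fin m => if (w : ℕ) < b then 1 else 0)]
  rw [Fin.sum_univ_eq_sum_range (fun w => if w < b then 1 else 0) m]
  rw [← Finset.card_filter]
  have : (range m).filter (fun w => w < b) = range b := by
    ext w; simp; omega
  rw [this, card_range]

lemma le_Rc {m a b : ℕ} {π : Perm (Fin m)} (h : Slot a b π) (hb : b ≤ m) (j : Fin m)
    (hj : (j : ℕ) < a) : b ≤ Rc π j := by
  conv_lhs => rw [← sum_val_lt π b hb]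
  unfold Rc
  refine Finset.sum_le_sum fun k _ => ?_
  split_ifs with h1 h2
  · rfl
  · exfalso
    apply h2
    have hk : a ≤ (k : ℕ) := by
      by_contra hk
      have := h k (by omega)
      omega
    have := h j hj
    constructor
    · rw [Fin.lt_def]; omega
    · rw [Fin.lt_def]; omega
  · omega
  · rfl

lemma cost_congr_left {m a b : ℕ} {e e' f : ℕ → ℕ} {c T : ℕ} (hc : c < T) (hb : b ≤ m)
    (he : ∀ i, i < a → e i = e' i ∨ (T ≤ b + e i ∧ T ≤ b + e' i))
    {π : Perm (Fin m)} (h : Slot a b π) (hπ : cost a b e f π ≤ c) : cost a b e' f π ≤ c := by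
  have : cost a b e' f π = cost a b e f π := by
    unfold cost
    refine Finset.sum_congr rfl fun j _ => ?_
    by_cases hj : (j : ℕ) < a
    · rcases he j hj with h1 | ⟨h1, -⟩
      · simp [cut, hj, h1]
      · have hle : (Lc π j + cut b f (π j)) * (Rc π j + cut a e j) ≤ cost a b e f π := by
          unfold cost
          exact Finset.single_le_sum (f := fun j => (Lc π j + cut b f (π j)) * (Rc π j + cut a e j))
            (fun _ _ => Nat.zero_le _) (mem_univ j)
        have hR := le_Rc h hb j hj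
        have hcut : cut a e j = e j := by simp [cut, hj]
        have hA : Lc π j + cut b f (π j) = 0 := by
          by_contra hne
          have h2 : 1 * (Rc π j + cut a e j) ≤ (Lc π j + cut b f (π j)) * (Rc π j + cut a e j) :=
            Nat.mul_le_mul_right _ (by omega)
          omega
        rw [hA]; simp
    · simp [cut, hj]
  omega

lemma W_congr_left {m a b : ℕ} {e e' : ℕ → ℕ} (f : ℕ → ℕ) {c T : ℕ} (hc : c < T) (hb : b ≤ m)
    (he : ∀ i, i < a → e i = e' i ∨ (T ≤ b + e i ∧ T ≤ b + e' i)) :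
    W m a b e f c = W m a b e' f c := by
  unfold W
  congr 1
  ext π
  simp only [mem_filter, mem_univ, true_and]
  constructor
  · rintro ⟨h1, h2⟩
    exact ⟨h1, cost_congr_left hc hb he h1 h2⟩
  · rintro ⟨h1, h2⟩
    refine ⟨h1, cost_congr_left hc hb (fun i hi => ?_) h1 h2⟩
    rcases he i hi with h | h
    · exact Or.inl h.symm
    · exact Or.inr h.symm

lemma W_congr {m a b : ℕ} {e e' f f' : ℕ → ℕ} {c T : ℕ} (hc : c < T) (ha : a ≤ m) (hb : b ≤ m)
    (he : ∀ i, i < a → e i = e' i ∨ (T ≤ b + e i ∧ T ≤ b + e' i))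
    (hf : ∀ i, i < b → f i = f' i ∨ (T ≤ a + f i ∧ T ≤ a + f' i)) :
    W m a b e f c = W m a b e' f' c := by
  rw [W_congr_left f hc hb he, W_symm, W_congr_left e' hc ha hf, W_symm]

lemma W_base (m : ℕ) (e f : ℕ → ℕ) (c : ℕ) : W m m m e f c = if m = 0 then 1 else 0 := by
  unfold W
  split_ifs with hm
  · subst hm
    simp [Slot, cost]
  · rw [Finset.card_eq_zero, Finset.filter_eq_empty_iff]
    rintro π - ⟨h, -⟩
    have := h ⟨0, by omega⟩ (by simp; omega)
    have := (π ⟨0, by omega⟩).2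
    omega

/-- insertion of the entry `(i, b)`. -/
def ins {m : ℕ} (i b : Fin (m + 1)) (σ : Perm (Fin m)) : Perm (Fin (m + 1)) :=
  (finSuccEquiv' i).trans (σ.optionCongr.trans (finSuccEquiv' b).symm)

lemma ins_at {m : ℕ} (i b : Fin (m + 1)) (σ : Perm (Fin m)) : ins i b σ i = b := by
  simp [ins]

lemma ins_succAbove {m : ℕ} (i b : Fin (m + 1)) (σ : Perm (Fin m)) (j : Fin m) :
    ins i b σ (i.succAbove j) = b.succAbove (σ j) := by
  simp [ins]

lemma ins_injective {m : ℕ} (i b : Fin (m + 1)) : Function.Injective (ins i b) := by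
  intro σ τ h
  ext j
  have := congrArg (fun π : Perm (Fin (m + 1)) => π (i.succAbove j)) h
  simp only [ins_succAbove] at this
  rw [Fin.succAbove_right_injective this]

lemma ins_surj {m : ℕ} (i b : Fin (m + 1)) (π : Perm (Fin (m + 1))) (h : π i = b) :
    ∃ σ, ins i b σ = π := by
  let ε : Perm (Option (Fin m)) := (finSuccEquiv' i).symm.trans (π.trans (finSuccEquiv' b))
  have hε : ε none = none := by simp [ε, h]
  refine ⟨removeNone ε, ?_⟩
  have h2 := map_equiv_removeNone ε
  rw [hε, Equiv.swap_self] at h2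
  unfold ins
  rw [h2]
  ext x
  simp [ε]

lemma val_succAbove {m : ℕ} (i : Fin (m + 1)) (j : Fin m) :
    ((i.succAbove j : Fin (m + 1)) : ℕ) = if (j : ℕ) < i then (j : ℕ) else j + 1 := by
  unfold Fin.succAbove
  split_ifs with h1 h2 h2
  · rfl
  · exact absurd h1 h2
  · exact absurd h2 h1
  · rfl

lemma Lc_ins {m : ℕ} (i b : Fin (m + 1)) (σ : Perm (Fin m)) (j : Fin m) :
    Lc (ins i b σ) (i.succAbove j) =
      Lc σ j + if (i : ℕ) ≤ j ∧ (σ j : ℕ) < b then 1 else 0 := by
  unfold Lc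
  rw [Fin.sum_univ_succAbove _ i, add_comm]
  congr 1
  · refine Finset.sum_congr rfl fun k _ => ?_
    simp only [ins_succAbove, Fin.succAbove_lt_succAbove_iff]
  · rw [ins_succAbove, ins_at]
    refine if_congr ?_ rfl rfl
    simp only [Fin.lt_def, val_succAbove]
    split_ifs <;> omega

lemma Rc_ins {m : ℕ} (i b : Fin (m + 1)) (σ : Perm (Fin m)) (j : Fin m) :
    Rc (ins i b σ) (i.succAbove j) =
      Rc σ j + if (j : ℕ) < i ∧ (b : ℕ) ≤ σ j then 1 else 0 := by
  unfold Rc
  rw [Fin.sum_univ_succAbove _ i, add_comm]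
  congr 1
  · refine Finset.sum_congr rfl fun k _ => ?_
    simp only [ins_succAbove, Fin.succAbove_lt_succAbove_iff]
  · rw [ins_succAbove, ins_at]
    refine if_congr ?_ rfl rfl
    simp only [Fin.lt_def, val_succAbove]
    split_ifs <;> omega

lemma slot_ins {m a : ℕ} (i b : Fin (m + 1)) (hi : (i : ℕ) < a) (σ : Perm (Fin m)) :
    Slot a b (ins i b σ) ↔ Slot (a - 1) b σ := by
  constructor
  · intro h j hj
    have := h (i.succAbove j) (by rw [val_succAbove]; split_ifs <;> omega)
    rw [ins_succAbove, val_succAbove] at this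
    split_ifs at this <;> omega
  · intro h J hJ
    rcases Fin.eq_self_or_eq_succAbove i J with rfl | ⟨j, rfl⟩
    · rw [ins_at]
    · rw [val_succAbove] at hJ
      have := h j (by split_ifs at hJ <;> omega)
      rw [ins_succAbove, val_succAbove]
      split_ifs <;> omega

/-- the offsets after deleting slot `i`. -/
def del (i : ℕ) (e : ℕ → ℕ) (j : ℕ) : ℕ := if j < i then e j + 1 else e (j + 1)

lemma Lc_ins_at {m a : ℕ} (i b : Fin (m + 1)) (hi : (i : ℕ) < a) (σ : Perm (Fin m))
    (h : Slot (a - 1) b σ) : Lc (ins i b σ) i = i := by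
  unfold Lc
  rw [Fin.sum_univ_succAbove _ i]
  have h0 := sum_val_lt (1 : Perm (Fin m)) i (by have := i.2; omega)
  conv_rhs => rw [← h0]
  simp only [lt_self_iff_false, false_and, if_false, zero_add]
  refine Finset.sum_congr rfl fun k _ => ?_
  refine if_congr ?_ rfl rfl
  rw [ins_succAbove, ins_at]
  simp only [Fin.lt_def, val_succAbove, Perm.coe_one, id]
  have := h k
  split_ifs <;> omega

lemma Rc_ins_at {m a : ℕ} (i b : Fin (m + 1)) (hi : (i : ℕ) < a) (σ : Perm (Fin m))
    (h : Slot (a - 1) b σ) : Rc (ins i b σ) i = b := by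
  unfold Rc
  rw [Fin.sum_univ_succAbove _ i]
  have h0 := sum_val_lt σ b (by have := b.2; omega)
  conv_rhs => rw [← h0]
  simp only [lt_self_iff_false, false_and, if_false, zero_add]
  refine Finset.sum_congr rfl fun k _ => ?_
  refine if_congr ?_ rfl rfl
  rw [ins_succAbove, ins_at]
  simp only [Fin.lt_def, val_succAbove]
  have := h k
  split_ifs <;> omega

lemma cost_ins {m a : ℕ} (i b : Fin (m + 1)) (hi : (i : ℕ) < a) (e f : ℕ → ℕ) (σ : Perm (Fin m))
    (h : Slot (a - 1) b σ) :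
    cost a b e f (ins i b σ) =
      i * (b + e i) + cost (a - 1) b (del i e) (fun w => f w + 1) σ := by
  unfold cost
  rw [Fin.sum_univ_succAbove _ i]
  congr 1
  · rw [Lc_ins_at i b hi σ h, Rc_ins_at i b hi σ h, ins_at]
    simp [cut, hi]
  · refine Finset.sum_congr rfl fun j _ => ?_
    rw [Lc_ins, Rc_ins, ins_succAbove]
    have := h j
    congr 1
    · simp only [cut, val_succAbove]
      split_ifs <;> omega
    · simp only [cut, val_succAbove, del]
      split_ifs <;> omega

lemma card_fiber {m a : ℕ} (i b : Fin (m + 1)) (hi : (i : ℕ) < a) (e f : ℕ → ℕ) (c : ℕ) :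
    (univ.filter (fun π : Perm (Fin (m + 1)) =>
      (Slot a b π ∧ cost a b e f π ≤ c) ∧ π i = b)).card =
      if i * (b + e i) ≤ c then
        W m (a - 1) b (del i e) (fun w => f w + 1) (c - i * (b + e i)) else 0 := by
  have key : (univ.filter (fun π : Perm (Fin (m + 1)) =>
      (Slot a b π ∧ cost a b e f π ≤ c) ∧ π i = b)) =
      (univ.filter (fun σ : Perm (Fin m) => Slot (a - 1) b σ ∧
        i * (b + e i) + cost (a - 1) b (del i e) (fun w => f w + 1) σ ≤ c)).map
        ⟨ins i b, ins_injective i b⟩ := by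
    ext π
    simp only [mem_filter, mem_univ, true_and, mem_map, Function.Embedding.coeFn_mk]
    constructor
    · rintro ⟨⟨h1, h2⟩, h3⟩
      obtain ⟨σ, rfl⟩ := ins_surj i b π h3
      have h4 := (slot_ins i b hi σ).1 h1
      exact ⟨σ, ⟨h4, by rw [← cost_ins i b hi e f σ h4]; exact h2⟩, rfl⟩
    · rintro ⟨σ, ⟨h1, h2⟩, rfl⟩
      exact ⟨⟨(slot_ins i b hi σ).2 h1, by rw [cost_ins i b hi e f σ h1]; exact h2⟩, ins_at i b σ⟩
  rw [key, card_map]
  split_ifs with hc
  · unfold W
    congr 1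
    ext σ
    simp only [mem_filter, mem_univ, true_and]
    constructor
    · rintro ⟨h1, h2⟩; exact ⟨h1, by omega⟩
    · rintro ⟨h1, h2⟩; exact ⟨h1, by omega⟩
  · rw [Finset.card_eq_zero, Finset.filter_eq_empty_iff]
    rintro σ - ⟨-, h2⟩
    omega

/-- offsets after opening value slot `b`. -/
def opn (b : ℕ) (f : ℕ → ℕ) (w : ℕ) : ℕ := if w < b then f w else 0

lemma cost_opn {m : ℕ} (a b : ℕ) (e f : ℕ → ℕ) (π : Perm (Fin m)) :
    cost a (b + 1) e (opn b f) π = cost a b e f π := by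
  unfold cost
  refine Finset.sum_congr rfl fun j _ => ?_
  congr 2
  simp only [cut, opn]
  split_ifs <;> omega

theorem W_rec {m a b : ℕ} (ha : a ≤ m + 1) (hb : b ≤ m) (e f : ℕ → ℕ) (c : ℕ) :
    W (m + 1) a b e f c = W (m + 1) a (b + 1) e (opn b f) c +
      ∑ i ∈ range a, if i * (b + e i) ≤ c then
        W m (a - 1) b (del i e) (fun w => f w + 1) (c - i * (b + e i)) else 0 := by
  obtain ⟨β, rfl⟩ : ∃ β : Fin (m + 1), (β : ℕ) = b := ⟨⟨b, by omega⟩, rfl⟩
  set s := univ.filter (fun π : Perm (Fin (m + 1)) => Slot a β π ∧ cost a β e f π ≤ c) with hs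
  have h1 := Finset.card_filter_add_card_filter_not (s := s) (fun π => ((π⁻¹ β : Fin (m + 1)) : ℕ) < a)
  have h2 : (s.filter (fun π => ¬ ((π⁻¹ β : Fin (m + 1)) : ℕ) < a)).card =
      W (m + 1) a (β + 1) e (opn β f) c := by
    unfold W
    congr 1
    ext π
    simp only [hs, mem_filter, mem_univ, true_and, cost_opn]
    constructor
    · rintro ⟨⟨h3, h4⟩, h5⟩
      refine ⟨fun i hi => ?_, h4⟩
      have h6 := h3 i hi
      have h7 : π i ≠ β := by
        intro h8
        apply h5
        rw [← h8]; simpa using hi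
      have : (π i : ℕ) ≠ β := fun h9 => h7 (Fin.ext h9)
      omega
    · rintro ⟨h3, h4⟩
      refine ⟨⟨fun i hi => ?_, h4⟩, fun h5 => ?_⟩
      · have := h3 i hi; omega
      · have := h3 _ h5
        simp at this
  have h3 : (s.filter (fun π => ((π⁻¹ β : Fin (m + 1)) : ℕ) < a)).card =
      ∑ i ∈ range a, if i * (β + e i) ≤ c then
        W m (a - 1) β (del i e) (fun w => f w + 1) (c - i * (β + e i)) else 0 := by
    rw [Finset.card_eq_sum_card_fiberwise (f := fun π => ((π⁻¹ β : Fin (m + 1)) : ℕ))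
      (t := range a) (by intro π hπ; simp only [coe_filter, Set.mem_ofPred_eq] at hπ; simpa using hπ.2)]
    refine Finset.sum_congr rfl fun i hi => ?_
    rw [mem_range] at hi
    obtain ⟨ι, rfl⟩ : ∃ ι : Fin (m + 1), (ι : ℕ) = i := ⟨⟨i, by omega⟩, rfl⟩
    rw [← card_fiber ι β hi e f c]
    congr 1
    ext π
    simp only [hs, mem_filter, mem_univ, true_and]
    constructor
    · rintro ⟨⟨h4, -⟩, h5⟩
      refine ⟨h4, ?_⟩
      rw [← Fin.ext h5]; simp
    · rintro ⟨h4, h5⟩
      have : π⁻¹ β = ι := by rw [← h5]; simp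
      rw [this]
      exact ⟨⟨h4, hi⟩, rfl⟩
  have h0 : W (m + 1) a β e f c = s.card := rfl
  omega

theorem W_top (n t : ℕ) (e f : ℕ → ℕ) :
    W n 0 0 e f t = ((Finset.univ : Finset (Equiv.Perm (Fin n))).filter (fun σ : Equiv.Perm (Fin n) =>
          ((Finset.univ : Finset (Fin n × Fin n × Fin n)).filter (fun p : Fin n × Fin n × Fin n =>
            p.1 < p.2.1 ∧ p.2.1 < p.2.2 ∧ σ p.2.2 < σ p.2.1 ∧ σ p.2.1 < σ p.1)).card ≤ t)).card := by
  unfold W
  congr 1
  ext σ
  simp only [mem_filter, mem_univ, true_and]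
  have : cost 0 0 e f σ = ((Finset.univ : Finset (Fin n × Fin n × Fin n)).filter
      (fun p : Fin n × Fin n × Fin n =>
            p.1 < p.2.1 ∧ p.2.1 < p.2.2 ∧ σ p.2.2 < σ p.2.1 ∧ σ p.2.1 < σ p.1)).card := by
    rw [Finset.card_filter, Fintype.sum_prod_type, Finset.sum_comm, Fintype.sum_prod_type]
    unfold cost
    refine Finset.sum_congr rfl fun j _ => ?_
    simp only [cut, Nat.not_lt_zero, if_false, add_zero]
    unfold Lc Rc
    rw [Finset.sum_mul_sum, Finset.sum_comm]
    refine Finset.sum_congr rfl fun k _ => Finset.sum_congr rfl fun i _ => ?_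
    by_cases h1 : i < j <;> by_cases h2 : j < k <;> by_cases h3 : σ k < σ j <;>
      by_cases h4 : σ j < σ i <;> simp [h1, h2, h3, h4]
  rw [this]
  simp [Slot]

end Pool.Agent.P.MP_579152_co
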