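import Mathlib

/-!
The subring of power series that are rational in `x` and the square root of `1 - 4x`.
-/

set_option autoImplicit false

namespace Pool.Agent.P.MP_579152_co

open PowerSeries

/-- `u = C - 1`, with `C` the Catalan series. -/
noncomputable def uu : PowerSeries ℚ := PowerSeries.map (Nat.castRingHom ℚ) catalanSeries - 1

lemma uu_eq : uu = X * (1 + uu) ^ 2 := by
  have h := congrArg (PowerSeries.map (Nat.castRingHom ℚ)) catalanSeries_sq_mul_X_add_one
  simp only [map_add, map_mul, map_pow, map_one, PowerSeries.map_X] at h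
  unfold uu
  linear_combination -h

/-- the square root of `1 - 4x`. -/
noncomputable def SS : PowerSeries ℚ := 1 - 2 * X * (1 + uu)

lemma SS_sq : SS ^ 2 = 1 - 4 * X := by
  unfold SS
  linear_combination (-4 * X : PowerSeries ℚ) * uu_eq

/-- membership in the field generated by `x` and `SS`. -/
def InK (F : PowerSeries ℚ) : Prop :=
  ∃ P₀ P₁ Q : Polynomial ℚ, Q ≠ 0 ∧
    (Q : PowerSeries ℚ) * F = (P₀ : PowerSeries ℚ) + (P₁ : PowerSeries ℚ) * SS

lemma InK.poly (P : Polynomial ℚ) : InK (P : PowerSeries ℚ) :=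
  ⟨P, 0, 1, one_ne_zero, by simp⟩

lemma InK.add {F G : PowerSeries ℚ} (hF : InK F) (hG : InK G) : InK (F + G) := by
  obtain ⟨P₀, P₁, Q, hQ, h⟩ := hF
  obtain ⟨P₀', P₁', Q', hQ', h'⟩ := hG
  refine ⟨Q' * P₀ + Q * P₀', Q' * P₁ + Q * P₁', Q * Q', mul_ne_zero hQ hQ', ?_⟩
  push_cast
  linear_combination (Q' : PowerSeries ℚ) * h + (Q : PowerSeries ℚ) * h'

lemma InK.neg {F : PowerSeries ℚ} (hF : InK F) : InK (-F) := by
  obtain ⟨P₀, P₁, Q, hQ, h⟩ := hF
  refine ⟨-P₀, -P₁, Q, hQ, ?_⟩
  push_cast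
  linear_combination -h

lemma coe_D : ((1 - 4 * Polynomial.X : Polynomial ℚ) : PowerSeries ℚ) = 1 - 4 * X := by
  have h4 : ((4 : Polynomial ℚ) : PowerSeries ℚ) = 4 := by
    have : (4 : Polynomial ℚ) = 1 + 1 + 1 + 1 := by norm_num
    rw [this]; push_cast; norm_num
  push_cast
  rw [h4]

lemma InK.mul {F G : PowerSeries ℚ} (hF : InK F) (hG : InK G) : InK (F * G) := by
  obtain ⟨P₀, P₁, Q, hQ, h⟩ := hF
  obtain ⟨P₀', P₁', Q', hQ', h'⟩ := hG
  refine ⟨P₀ * P₀' + P₁ * P₁' * (1 - 4 * Polynomial.X), P₀ * P₁' + P₁ * P₀', Q * Q',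
    mul_ne_zero hQ hQ', ?_⟩
  rw [Polynomial.coe_add, Polynomial.coe_mul _ (1 - 4 * Polynomial.X), coe_D, ← SS_sq]
  push_cast
  linear_combination ((Q' : PowerSeries ℚ) * G) * h +
    ((P₀ : PowerSeries ℚ) + (P₁ : PowerSeries ℚ) * SS) * h'

lemma InK.SS : InK SS := ⟨0, 1, 1, one_ne_zero, by simp⟩

lemma InK.of_poly_mul {F : PowerSeries ℚ} {N : Polynomial ℚ} (hN : N ≠ 0)
    (h : InK ((N : PowerSeries ℚ) * F)) : InK F := by
  obtain ⟨P₀, P₁, Q, hQ, h⟩ := h
  refine ⟨P₀, P₁, Q * N, mul_ne_zero hQ hN, ?_⟩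
  push_cast
  linear_combination h

lemma norm_ne_zero {P₀ P₁ : Polynomial ℚ} (h : P₀ ^ 2 - P₁ ^ 2 * (1 - 4 * Polynomial.X) = 0) :
    P₀ = 0 ∧ P₁ = 0 := by
  have hD : (1 - 4 * Polynomial.X : Polynomial ℚ).natDegree = 1 := by
    compute_degree!
  have hD0 : (1 - 4 * Polynomial.X : Polynomial ℚ) ≠ 0 := by
    intro h0; rw [h0] at hD; simp at hD
  have h1 : P₁ = 0 := by
    by_contra h1
    have h2 : P₀ ^ 2 = P₁ ^ 2 * (1 - 4 * Polynomial.X) := by linear_combination h
    have h3 := congrArg Polynomial.natDegree h2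
    rw [Polynomial.natDegree_mul (pow_ne_zero 2 h1) hD0, Polynomial.natDegree_pow,
      Polynomial.natDegree_pow, hD] at h3
    omega
  refine ⟨?_, h1⟩
  rw [h1] at h
  simpa using h

lemma InK.of_mul {D F : PowerSeries ℚ} (hD : InK D) (hD0 : D ≠ 0) (h : InK (D * F)) : InK F := by
  obtain ⟨P₀, P₁, Q, hQ, hQD⟩ := hD
  have hN : P₀ ^ 2 - P₁ ^ 2 * (1 - 4 * Polynomial.X) ≠ 0 := by
    intro h0
    obtain ⟨h1, h2⟩ := norm_ne_zero h0
    rw [h1, h2] at hQD
    simp only [Polynomial.coe_zero, zero_mul, add_zero, mul_eq_zero] at hQD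
    rcases hQD with h3 | h3
    · exact hQ (by exact_mod_cast h3)
    · exact hD0 h3
  refine InK.of_poly_mul hN ?_
  have : ((P₀ ^ 2 - P₁ ^ 2 * (1 - 4 * Polynomial.X) : Polynomial ℚ) : PowerSeries ℚ) * F =
      (Q : PowerSeries ℚ) * ((P₀ : PowerSeries ℚ) + -((P₁ : PowerSeries ℚ) * MP_579152_co.SS)) * (D * F) := by
    rw [Polynomial.coe_sub, Polynomial.coe_mul _ (1 - 4 * Polynomial.X), coe_D, ← SS_sq]
    push_cast
    linear_combination (-((P₀ : PowerSeries ℚ) - (P₁ : PowerSeries ℚ) * MP_579152_co.SS) * F) * hQD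
  rw [this]
  exact ((InK.poly Q).mul ((InK.poly P₀).add ((InK.poly P₁).mul InK.SS).neg)).mul h

lemma InK.X : InK X := by simpa using InK.poly Polynomial.X

lemma InK.one : InK 1 := by simpa using InK.poly 1

lemma InK.zero : InK 0 := by simpa using InK.poly 0

lemma InK.uu : InK uu := by
  refine InK.of_mul (D := PowerSeries.X + PowerSeries.X) (InK.X.add InK.X) ?_ ?_
  · intro h
    have := congrArg (PowerSeries.coeff 1) h
    simp at this
  · have : (PowerSeries.X + PowerSeries.X) * MP_579152_co.uu =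
        1 + -(PowerSeries.X + PowerSeries.X) + -MP_579152_co.SS := by
      unfold MP_579152_co.SS; ring
    rw [this]
    exact (InK.one.add (InK.X.add InK.X).neg).add InK.SS.neg

/-- the subring. -/
def KK : Subring (PowerSeries ℚ) where
  carrier := {F | InK F}
  mul_mem' := InK.mul
  one_mem' := InK.one
  add_mem' := InK.add
  zero_mem' := InK.zero
  neg_mem' := InK.neg

/-- a finite linear system with matrix congruent to the identity modulo `x`. -/
theorem InK.of_system {ι : Type} [Finite ι] (G : ι → PowerSeries ℚ)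
    (h : ∀ s, ∃ e v, InK e ∧ v ∈ Submodule.span KK (Set.range G) ∧ G s = e + PowerSeries.X * v)
    (s : ι) : InK (G s) := by
  let x : KK := ⟨PowerSeries.X, InK.X⟩
  let V := Submodule.span KK (Set.range G)
  let N : Submodule KK (PowerSeries ℚ) := Submodule.span KK {1}
  have hN : ∀ F, F ∈ N ↔ InK F := by
    intro F
    rw [Submodule.mem_span_singleton]
    constructor
    · rintro ⟨a, rfl⟩
      have ha : InK (a : PowerSeries ℚ) := a.2
      simpa [Subring.smul_def] using ha
    · intro hF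
      exact ⟨⟨F, hF⟩, by simp [Subring.smul_def]⟩
  have hV : V.FG := Submodule.fg_span (Set.finite_range G)
  have hle : V ≤ N ⊔ (Ideal.span {x}) • V := by
    refine Submodule.span_le.2 ?_
    rintro _ ⟨s, rfl⟩
    obtain ⟨e, v, he, hv, hs⟩ := h s
    rw [hs]
    refine Submodule.add_mem_sup ((hN e).2 he) ?_
    exact Submodule.smul_mem_smul (Ideal.mem_span_singleton_self x) hv
  obtain ⟨r, hr1, hr⟩ := Submodule.exists_sub_one_mem_and_smul_le_of_fg_of_le_sup hV le_rfl hle
  have hr0 : (r : PowerSeries ℚ) ≠ 0 := by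
    obtain ⟨y, hy⟩ := Ideal.mem_span_singleton'.1 hr1
    have h1 : (y : PowerSeries ℚ) * PowerSeries.X = (r : PowerSeries ℚ) - 1 := congrArg Subtype.val hy
    intro h0
    rw [h0] at h1
    have := congrArg PowerSeries.constantCoeff h1
    simp at this
  refine InK.of_mul r.2 hr0 ?_
  have : r • G s ∈ N := hr (Submodule.smul_mem_pointwise_smul _ _ _
    (Submodule.subset_span ⟨s, rfl⟩))
  exact (hN _).1 this

/-- first passage. -/
theorem first_passage (E : ℕ → PowerSeries ℚ) (T : ℕ)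
    (h : ∀ k, T ≤ k → E (k + 1) = X * (E (k + 2) + 2 * E (k + 1) + E k)) :
    E (T + 1) = uu * E T := by
  have key : ∀ n k, T ≤ k → X ^ n ∣ E (k + 1) - uu * E k := by
    intro n
    induction n with
    | zero => intro k _; simp
    | succ n ih =>
      intro k hk
      have h1 : E (k + 1) - uu * E k =
          X * ((E (k + 1 + 1) - uu * E (k + 1)) + (uu + 2) * (E (k + 1) - uu * E k)) := by
        have := h k hk
        linear_combination this - E k * uu_eq
      rw [h1, pow_succ']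
      exact mul_dvd_mul_left _ (dvd_add (ih _ (by omega)) (Dvd.dvd.mul_left (ih _ hk) _))
  have : E (T + 1) - uu * E T = 0 := by
    ext n
    have := (PowerSeries.X_pow_dvd_iff.1 (key (n + 1) T le_rfl)) n (by omega)
    simpa using this
  linear_combination this

end Pool.Agent.P.MP_579152_co
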