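import Pool.Agent.P.MP_579152_co.Comb
import Pool.Agent.P.MP_579152_co.Field

/-!
Generating functions of the slot states.
-/

set_option autoImplicit false

namespace Pool.Agent.P.MP_579152_co

open PowerSeries Finset

/-- balanced states. -/
noncomputable def EE (h : ℕ) (e f : ℕ → ℕ) (c : ℕ) : PowerSeries ℚ :=
  PowerSeries.mk fun n => (W (h + n) h h e f c : ℚ)

/-- unbalanced states. -/
noncomputable def OO (h : ℕ) (e f : ℕ → ℕ) (c : ℕ) : PowerSeries ℚ :=
  PowerSeries.mk fun n => (W (h + 1 + n) (h + 1) h e f c : ℚ)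

lemma OO_rec (h : ℕ) (e f : ℕ → ℕ) (c : ℕ) :
    OO h e f c = EE (h + 1) e (opn h f) c +
      ∑ i ∈ range (h + 1), if i * (h + e i) ≤ c then
        EE h (del i e) (fun w => f w + 1) (c - i * (h + e i)) else 0 := by
  ext n
  rw [map_add, map_sum]
  simp only [OO, EE, coeff_mk]
  have h1 : h + 1 + n = (h + n) + 1 := by omega
  rw [h1, W_rec (by omega) (by omega)]
  push_cast
  congr 1
  refine Finset.sum_congr rfl fun i _ => ?_
  split_ifs <;> simp

lemma EE_rec (h : ℕ) (e f : ℕ → ℕ) (c : ℕ) :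
    EE h e f c = (if h = 0 then 1 else 0) + X * (OO h (opn h f) e c +
      ∑ i ∈ range h, if i * (h + e i) ≤ c then
        OO (h - 1) (fun w => f w + 1) (del i e) (c - i * (h + e i)) else 0) := by
  ext n
  cases n with
  | zero =>
    simp only [EE, coeff_mk, add_zero, W_base, map_add, coeff_zero_X_mul]
    split_ifs <;> simp
  | succ n =>
    rw [map_add, coeff_succ_X_mul, map_add, map_sum]
    have h0 : coeff (n + 1) (if h = 0 then (1 : PowerSeries ℚ) else 0) = 0 := by
      split_ifs <;> simp [coeff_one]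
    rw [h0, zero_add]
    simp only [OO, EE, coeff_mk]
    have h1 : h + (n + 1) = (h + n) + 1 := by omega
    have h2 : h + 1 + n = (h + n) + 1 := by omega
    rw [h1, h2, W_rec (by omega) (by omega), W_symm]
    push_cast
    congr 1
    refine Finset.sum_congr rfl fun i hi => ?_
    rw [mem_range] at hi
    have h3 : h - 1 + 1 = h := by omega
    split_ifs
    · rw [coeff_mk, h3, W_symm]
    · simp

lemma EE_congr {h : ℕ} {e e' f f' : ℕ → ℕ} {c T : ℕ} (hc : c < T)
    (he : ∀ i, i < h → e i = e' i ∨ (T ≤ h + e i ∧ T ≤ h + e' i))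
    (hf : ∀ i, i < h → f i = f' i ∨ (T ≤ h + f i ∧ T ≤ h + f' i)) :
    EE h e f c = EE h e' f' c := by
  ext n
  simp only [EE, coeff_mk]
  rw [W_congr hc (by omega) (by omega) he hf]

lemma EE_high {h : ℕ} (e f : ℕ → ℕ) {c T : ℕ} (hc : c < T) (hh : T ≤ h) :
    EE h e f c = EE h 0 0 c :=
  EE_congr hc (fun i _ => Or.inr ⟨by omega, by omega⟩) (fun i _ => Or.inr ⟨by omega, by omega⟩)

lemma OO_high {h : ℕ} (e f : ℕ → ℕ) {c T : ℕ} (hc : c < T) (hh : T ≤ h) :
    OO h e f c = EE (h + 1) 0 0 c + EE h 0 0 c := by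
  rw [OO_rec, EE_high _ _ hc (by omega : T ≤ h + 1), Finset.sum_range_succ']
  have : (∑ i ∈ range h, if (i + 1) * (h + e (i + 1)) ≤ c then
      EE h (del (i + 1) e) (fun w => f w + 1) (c - (i + 1) * (h + e (i + 1))) else 0) = 0 := by
    refine Finset.sum_eq_zero fun i _ => ?_
    rw [if_neg]
    nlinarith [Nat.zero_le (i * (h + e (i + 1))), Nat.zero_le (e (i + 1))]
  rw [this]
  simp [EE_high _ _ hc hh]

lemma EE_high_rec {c T : ℕ} (hc : c < T) (k : ℕ) (hk : T ≤ k) :
    EE (k + 1) 0 0 c = X * (EE (k + 2) 0 0 c + 2 * EE (k + 1) 0 0 c + EE k 0 0 c) := by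
  conv_lhs => rw [EE_rec, Finset.sum_range_succ']
  have : (∑ i ∈ range k, if (i + 1) * (k + 1 + (0 : ℕ → ℕ) (i + 1)) ≤ c then
      OO (k + 1 - 1) (fun w => (0 : ℕ → ℕ) w + 1) (del (i + 1) 0)
        (c - (i + 1) * (k + 1 + (0 : ℕ → ℕ) (i + 1))) else 0) = 0 := by
    refine Finset.sum_eq_zero fun i _ => ?_
    rw [if_neg]
    simp only [Pi.zero_apply]
    nlinarith [Nat.zero_le (i * (k + 1))]
  rw [this]
  simp only [zero_mul, zero_le, if_true, Nat.add_sub_cancel, Nat.sub_zero, zero_add,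
    Nat.succ_ne_zero, if_false]
  rw [OO_high _ _ hc (by omega : T ≤ k + 1), OO_high _ _ hc hk]
  ring

lemma EE_passage {c T : ℕ} (hc : c < T) : EE (T + 1) 0 0 c = uu * EE T 0 0 c :=
  first_passage (fun k => EE k 0 0 c) T (EE_high_rec hc)

/-- extension by zero of truncated offsets. -/
def ext0 {T : ℕ} (e : Fin T → Fin (T + 1)) (i : ℕ) : ℕ := if h : i < T then e ⟨i, h⟩ else 0

/-- the finitely many states. -/
noncomputable def GG (T : ℕ) (s : Fin (T + 1) × (Fin T → Fin (T + 1)) × (Fin T → Fin (T + 1)) × Fin T) :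
    PowerSeries ℚ := EE s.1 (ext0 s.2.1) (ext0 s.2.2.1) s.2.2.2

lemma EE_eq_GG {T h c : ℕ} (hh : h ≤ T) (hc : c < T) (e f : ℕ → ℕ) :
    ∃ s, EE h e f c = GG T s := by
  refine ⟨⟨⟨h, by omega⟩, fun i => ⟨min (e i) T, by omega⟩, fun i => ⟨min (f i) T, by omega⟩,
    ⟨c, hc⟩⟩, ?_⟩
  unfold GG
  refine EE_congr hc (fun i hi => ?_) (fun i hi => ?_)
  · have : i < T := by omega
    simp only [ext0, this, dif_pos]
    omega
  · have : i < T := by omega
    simp only [ext0, this, dif_pos]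
    omega

lemma EE_mem {T h c : ℕ} (hh : h ≤ T + 1) (hc : c < T) (e f : ℕ → ℕ) :
    EE h e f c ∈ Submodule.span KK (Set.range (GG T)) := by
  have low : ∀ h e f, h ≤ T → EE h e f c ∈ Submodule.span KK (Set.range (GG T)) := by
    intro h e f hh
    obtain ⟨s, hs⟩ := EE_eq_GG hh hc e f
    rw [hs]
    exact Submodule.subset_span ⟨s, rfl⟩
  rcases Nat.lt_or_ge h (T + 1) with h1 | h1
  · exact low h e f (by omega)
  · obtain rfl : h = T + 1 := by omega
    rw [EE_high e f hc (by omega), EE_passage hc]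
    exact Submodule.smul_mem _ (⟨uu, InK.uu⟩ : KK) (low T 0 0 le_rfl)

lemma OO_mem {T h c : ℕ} (hh : h ≤ T) (hc : c < T) (e f : ℕ → ℕ) :
    OO h e f c ∈ Submodule.span KK (Set.range (GG T)) := by
  rw [OO_rec]
  refine Submodule.add_mem _ (EE_mem (by omega) hc _ _) (Submodule.sum_mem _ fun i _ => ?_)
  split_ifs
  · exact EE_mem (by omega) (by omega) _ _
  · exact Submodule.zero_mem _

theorem GG_inK (T : ℕ) (s) : InK (GG T s) := by
  refine InK.of_system (GG T) (fun s => ?_) s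
  obtain ⟨h, e, f, c⟩ := s
  refine ⟨_, _, ?_, ?_, EE_rec _ _ _ _⟩
  · split_ifs
    · exact InK.one
    · exact InK.zero
  · have hh := h.2
    have hc := c.2
    refine Submodule.add_mem _ (OO_mem (by dsimp only; omega) hc _ _)
      (Submodule.sum_mem _ fun i _ => ?_)
    split_ifs
    · exact OO_mem (by dsimp only; omega) (by dsimp only; omega) _ _
    · exact Submodule.zero_mem _

theorem EE_zero_inK (t : ℕ) : InK (EE 0 0 0 t) := by
  obtain ⟨s, hs⟩ := EE_eq_GG (T := t + 1) (h := 0) (c := t) (by omega) (by omega) 0 0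
  rw [hs]
  exact GG_inK _ s

end Pool.Agent.P.MP_579152_co
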